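import Pool.Agent.H.MP_14c6b5.F

namespace Pool.Agent.Results.MP_0ab388_gt.Irr

open Set Pool.Agent.H.MP_14c6b5

/-- `A` fills `B`. -/
def Fills {X : Type*} (A B : Set (Set X)) : Prop :=
  ∀ U ∈ B, ∀ x ∈ U, ∃ W ∈ A, W ≠ U ∧ x ∈ W ∧ W ⊆ U

theorem result : ∃ F : Set (Set (ℕ → ℕ)),
    (∀ U ∈ F, IsClosed U) ∧ (∀ U ∈ F, @MeasurableSet _ (borel (ℕ → ℕ)) U) ∧ Fills F F ∧
      ¬ ∃ F₀ F₁ : Set (Set (ℕ → ℕ)), F₀ ∪ F₁ = F ∧ Disjoint F₀ F₁ ∧ Fills F₀ F ∧ Fills F₁ F := by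
  have hc : ∀ U ∈ {U | ∃ z k, U = φ '' D0.B z k}, IsClosed U := by
    rintro _ ⟨z, k, rfl⟩
    exact φ.isClosedMap _ (D0.closed z k)
  refine ⟨{U | ∃ z k, U = φ '' D0.B z k}, hc, fun U hU => ?_, ?_, ?_⟩
  · let _ := borel (ℕ → ℕ)
    have : BorelSpace (ℕ → ℕ) := ⟨rfl⟩
    exact (hc U hU).measurableSet
  · rintro _ ⟨z, k, rfl⟩ _ ⟨x, hx, rfl⟩
    obtain ⟨z', k', h1, h2, h3⟩ := D0.fill z k x hx
    exact ⟨_, ⟨z', k', rfl⟩, fun e => h1 (φ.injective.image_injective e), mem_image_of_mem _ h2,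
      image_mono h3⟩
  · rintro ⟨F₀, F₁, hu, hd, h0, h1⟩
    refine D0.irr (fun U => φ '' U ∈ F₁) (fun z k x hx => ?_) fun z k x hx => ?_
    · obtain ⟨W, a1, -, a2, a3⟩ := h0 _ ⟨z, k, rfl⟩ _ (mem_image_of_mem φ hx)
      obtain ⟨z', k', rfl⟩ : W ∈ {U | ∃ z k, U = φ '' D0.B z k} := hu ▸ Or.inl a1
      exact ⟨z', k', fun h => disjoint_left.1 hd a1 h, (φ.injective.mem_set_image).1 a2,
        (image_subset_image_iff φ.injective).1 a3⟩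
    · obtain ⟨W, a1, -, a2, a3⟩ := h1 _ ⟨z, k, rfl⟩ _ (mem_image_of_mem φ hx)
      obtain ⟨z', k', rfl⟩ : W ∈ {U | ∃ z k, U = φ '' D0.B z k} := hu ▸ Or.inr a1
      exact ⟨z', k', a1, (φ.injective.mem_set_image).1 a2,
        (image_subset_image_iff φ.injective).1 a3⟩

end Pool.Agent.Results.MP_0ab388_gt.Irr
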